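import Pool.Agent.Q247.AP.Main

/-!
# The curvatures of the Apollonian sphere packing built from the 24-cell

The set of curvatures of the Apollonian packing `Ω(𝓑)` of the 24-cell equals `ℕ`.

All objects are defined in `Pool.Agent.Q247.AP.Defs`, literally as in the problem: stereographic
projection `stereo` of the unit sphere of `ℝ⁴` from `N = (0,0,0,1)` (onto the equatorial hyperplane),
images of caps `capImage`, ball arrangement projection `ballProj` (over the vertices, i.e. extreme
points, of a polytope), polar `polarBody`, edge-scribed regular 24-cells, the packing `pack` and the
dual packing `dualPack` (both dilated by `1/√3`), curvature `HasCurvature`, inversions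
`IsInversionIn`, the Apollonian group `apolloGroup` (subgroup of the permutations of `ℝ³ ∪ {∞}`
generated by the inversions in the members of the dual packing) and `apolloPacking = Ω(𝓑)`.

Sketch of the proof.  In Lorentz coordinates the members of `Ω(𝓑)` are pairs `(a, t)`, `a ∈ D₄`,
`t ∈ ℤ`, `2|a|² - 3t² = 1`, `t ≥ 1`, and the curvature is `3t - 2a₁ - a₂ - a₃`, a nonnegative integer
by Cauchy-Schwarz.  The members tangent to a starting sphere correspond to the primitive solutions of
`x² + y² + z² = 3τ²` (descent).  For two suitable starting spheres, of curvatures `1` and `2`, the
curvature of the tangent member is `m - 1`, resp. `m - 2`, with `m` odd, and a change of variables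
turns the question into the existence, for every odd `m ≥ 3`, of integers `z, η, ξ` without common
prime factor and with `η + ξ` odd such that `z² + 8η² + 24ξ² = m²`.  This is proved by induction over
the prime factors of `m`: a solution for `m` is conjugated by a quaternion of norm `p` in the order
`ℤ[ω] + ℤ[ω]J`, `J² = -2`; at least one of the six unit variations of the quaternion keeps the vector
primitive and the parity condition.
-/

set_option autoImplicit false

namespace Pool.Agent.Results.MP_ab5bd9_nt.AllCurvatures

open Pool.Agent.Q247.AP

/-- **Q1 (proved).**  There are edge-scribed regular 24-cells `R` with an edge whose midpoint lies on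
the ray through the north pole, and for every such `R` each member of the Apollonian packing
`Ω(𝓑)` has exactly one curvature and the set of these curvatures is `ℕ = {0, 1, 2, …}`. -/
theorem result :
    (∃ R : Set E4, IsEdgeScribedCell24 R ∧ HasNorthEdge R) ∧
    ∀ R : Set E4, IsEdgeScribedCell24 R → HasNorthEdge R →
      (∀ S ∈ apolloPacking R, ∃! k : ℝ, HasCurvature S k) ∧
      {k : ℝ | ∃ S ∈ apolloPacking R, HasCurvature S k} = Set.range (fun n : ℕ => (n : ℝ)) :=
  ⟨exists_cell, fun _ hR hN => ⟨unique_curvature hR, curvatures hR hN⟩⟩

end Pool.Agent.Results.MP_ab5bd9_nt.AllCurvatures
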